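import Pool.Agent.Helper4.NotSpecht.Main

/-!
# Matrix algebras over infinite fields of characteristic 3 need not generate Specht varieties

For every infinite field `F` of characteristic `3` and every `n ≥ 6` the variety generated by
`M_n(F)` contains an associative algebra `A` such that the variety generated by `A` is not
finitely based.
-/

namespace Pool.Agent.Results.MP_63ef02_al.NotSpecht

open Pool.Agent.Helper4.NotSpecht

universe u

section defs

variable (F : Type u) [Field F]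

/-- The constant term of a noncommutative polynomial (its value at `0`). -/
noncomputable def constTerm (f : FreeAlgebra F ℕ) : F :=
  FreeAlgebra.lift F (fun _ : ℕ => (0 : F)) f

/-- `f` is a polynomial identity of the associative `F`-algebra `A`: it has no constant term and
vanishes under every substitution of elements of `A` for the variables. -/
def IsIdentity (A : Type u) [Ring A] [Algebra F A] (f : FreeAlgebra F ℕ) : Prop :=
  constTerm F f = 0 ∧ ∀ a : ℕ → A, FreeAlgebra.lift F a f = 0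

/-- The set `T(A)` of all polynomial identities of `A`. -/
def identities (A : Type u) [Ring A] [Algebra F A] : Set (FreeAlgebra F ℕ) :=
  {f | IsIdentity F A f}

/-- T-ideals of the free associative algebra without unit: the free algebra without unit is the
set of polynomials without constant term; a T-ideal is an ideal of it which is stable under all
its endomorphisms, and these are the restrictions of the endomorphisms of `FreeAlgebra F ℕ` which
send every variable to a polynomial without constant term. -/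
structure IsTIdeal (I : Set (FreeAlgebra F ℕ)) : Prop where
  constTerm_eq_zero : ∀ f ∈ I, constTerm F f = 0
  zero_mem : (0 : FreeAlgebra F ℕ) ∈ I
  add_mem : ∀ f ∈ I, ∀ g ∈ I, f + g ∈ I
  smul_mem : ∀ (c : F), ∀ f ∈ I, c • f ∈ I
  mul_mem_left : ∀ g : FreeAlgebra F ℕ, constTerm F g = 0 → ∀ f ∈ I, g * f ∈ I
  mul_mem_right : ∀ g : FreeAlgebra F ℕ, constTerm F g = 0 → ∀ f ∈ I, f * g ∈ I
  map_mem : ∀ ψ : FreeAlgebra F ℕ →ₐ[F] FreeAlgebra F ℕ,
    (∀ i : ℕ, constTerm F (ψ (FreeAlgebra.ι F i)) = 0) → ∀ f ∈ I, ψ f ∈ I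

/-- The T-ideal generated by a set `S` of polynomials without constant term. -/
def tIdealGen (S : Set (FreeAlgebra F ℕ)) : Set (FreeAlgebra F ℕ) :=
  {f | ∀ I : Set (FreeAlgebra F ℕ), IsTIdeal F I → S ⊆ I → f ∈ I}

/-- `T` is generated, as a T-ideal, by finitely many polynomials (without constant term). -/
def FinitelyBased (T : Set (FreeAlgebra F ℕ)) : Prop :=
  ∃ S : Set (FreeAlgebra F ℕ), S.Finite ∧ (∀ f ∈ S, constTerm F f = 0) ∧ T = tIdealGen F S

/-- The version of finite generation in which T-ideals are the two-sided ideals of the free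
algebra with unit which are stable under all its endomorphisms. -/
def FinitelyBasedUnital (T : Set (FreeAlgebra F ℕ)) : Prop :=
  ∃ S : Set (FreeAlgebra F ℕ), S.Finite ∧ ∀ f : FreeAlgebra F ℕ, f ∈ T ↔
    ∀ I : TwoSidedIdeal (FreeAlgebra F ℕ), (∀ g ∈ S, g ∈ I) →
      (∀ ψ : FreeAlgebra F ℕ →ₐ[F] FreeAlgebra F ℕ, ∀ g ∈ I, ψ g ∈ I) → f ∈ I

end defs

section proofs

variable {F : Type u} [Field F]

/-- block diagonal embedding `M_m(F) × F → M_{m ⊔ k}(F)`. -/
noncomputable def blk (m k : Type) [Fintype m] [DecidableEq m] [Fintype k] [DecidableEq k] :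
    (Matrix m m F × F) →ₐ[F] Matrix (m ⊕ k) (m ⊕ k) F where
  toFun p := Matrix.fromBlocks p.1 0 0 (p.2 • (1 : Matrix k k F))
  map_one' := by simp [Matrix.fromBlocks_one]
  map_mul' p q := by
    simp [Matrix.fromBlocks_multiply, smul_smul, mul_comm]
  map_zero' := by simp [Matrix.fromBlocks_zero]
  map_add' p q := by
    simp [Matrix.fromBlocks_add, add_smul]
  commutes' c := by
    simp only [Algebra.algebraMap_eq_smul_one]
    rw [← Matrix.fromBlocks_one, Matrix.fromBlocks_smul, smul_zero, smul_zero]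
    simp

/-- an identity of `M_n(F)`, `n ≥ 6`, is an identity of `M_6(F)`. -/
lemma identity_six {n : ℕ} (hn : 6 ≤ n) {f : FreeAlgebra F ℕ}
    (hf : IsIdentity F (Matrix (Fin n) (Fin n) F) f) :
    ∀ φ : ℕ → Matrix (Fin 2 × Fin 3) (Fin 2 × Fin 3) F, FreeAlgebra.lift F φ f = 0 := by
  intro φ
  obtain ⟨e⟩ : Nonempty (((Fin 2 × Fin 3) ⊕ Fin (n - 6)) ≃ Fin n) := by
    refine ⟨Fintype.equivOfCardEq ?_⟩
    simp
    omega
  let Φ : (Matrix (Fin 2 × Fin 3) (Fin 2 × Fin 3) F × F) →ₐ[F] Matrix (Fin n) (Fin n) F :=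
    (Matrix.reindexAlgEquiv F F e).toAlgHom.comp (blk (Fin 2 × Fin 3) (Fin (n - 6)))
  have h1 : FreeAlgebra.lift F (fun i => Φ (φ i, 0)) f = Φ (FreeAlgebra.lift F φ f, 0) := by
    have h2 : FreeAlgebra.lift F (fun i => Φ (φ i, 0)) =
        Φ.comp ((FreeAlgebra.lift F φ).prod (FreeAlgebra.lift F (fun _ : ℕ => (0 : F)))) := by
      apply FreeAlgebra.hom_ext
      funext i
      simp
    rw [h2, AlgHom.comp_apply, AlgHom.prod_apply]
    congr 2
    exact hf.1
  rw [hf.2] at h1
  have h3 : blk (F := F) (Fin 2 × Fin 3) (Fin (n - 6)) (FreeAlgebra.lift F φ f, 0) = 0 := by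
    apply (Matrix.reindexAlgEquiv F F e).injective
    rw [map_zero]
    exact h1.symm
  have h4 := congrArg Matrix.toBlocks₁₁ h3
  have h5 : Matrix.toBlocks₁₁ (blk (F := F) (Fin 2 × Fin 3) (Fin (n - 6))
      (FreeAlgebra.lift F φ f, 0)) = FreeAlgebra.lift F φ f := by
    exact Matrix.toBlocks_fromBlocks₁₁ _ _ _ _
  rw [h5] at h4
  rw [h4]
  rfl

variable [CharP F 3]

/-- the T-ideal of eventual identities -/
noncomputable def JJ (F : Type u) [Field F] [CharP F 3] : TwoSidedIdeal (FreeAlgebra F ℕ) :=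
  TwoSidedIdeal.mk' {f | ∃ K : ℕ, ∀ k, K ≤ k → f ∈ Idk F k}
    ⟨0, fun k _ => Idk_zero k⟩
    (by
      rintro x y ⟨K, hK⟩ ⟨K', hK'⟩
      exact ⟨max K K', fun k hk => Idk_add (hK k (le_trans (le_max_left _ _) hk))
        (hK' k (le_trans (le_max_right _ _) hk))⟩)
    (by
      rintro x ⟨K, hK⟩
      exact ⟨K, fun k hk => Idk_neg (hK k hk)⟩)
    (by
      rintro x y ⟨K, hK⟩
      exact ⟨K, fun k hk => Idk_mul_left x (hK k hk)⟩)
    (by
      rintro x y ⟨K, hK⟩
      exact ⟨K, fun k hk => Idk_mul_right y (hK k hk)⟩)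

lemma mem_JJ {f : FreeAlgebra F ℕ} : f ∈ JJ F ↔ ∃ K : ℕ, ∀ k, K ≤ k → f ∈ Idk F k := by
  rw [JJ, TwoSidedIdeal.mem_mk']
  rfl

lemma JJ_endo {f : FreeAlgebra F ℕ} (ψ : FreeAlgebra F ℕ →ₐ[F] FreeAlgebra F ℕ)
    (hf : f ∈ JJ F) : ψ f ∈ JJ F := by
  rw [mem_JJ] at hf ⊢
  obtain ⟨K, hK⟩ := hf
  exact ⟨K, fun k hk => Idk_endo ψ (hK k hk)⟩

lemma Idk_constTerm {k : ℕ} (hk : 0 < k) {f : FreeAlgebra F ℕ} (hf : f ∈ Idk F k) :
    constTerm F f = 0 := Idk_const hk hf

lemma JJ_constTerm {f : FreeAlgebra F ℕ} (hf : f ∈ JJ F) : constTerm F f = 0 := by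
  rw [mem_JJ] at hf
  obtain ⟨K, hK⟩ := hf
  exact Idk_constTerm (Nat.succ_pos K) (hK (K + 1) (Nat.le_succ K))

/-- the algebra: the relatively free algebra `F⟨X⟩ / J`. -/
abbrev AA (F : Type u) [Field F] [CharP F 3] : Type u := (JJ F).ringCon.Quotient

lemma lift_AA (ψ : ℕ → FreeAlgebra F ℕ) (f : FreeAlgebra F ℕ) :
    FreeAlgebra.lift F (fun i => ((JJ F).ringCon.mkₐ F (ψ i) : AA F)) f =
      (JJ F).ringCon.mkₐ F (FreeAlgebra.lift F ψ f) := by
  have : FreeAlgebra.lift F (fun i => ((JJ F).ringCon.mkₐ F (ψ i) : AA F)) =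
      ((JJ F).ringCon.mkₐ F).comp (FreeAlgebra.lift F ψ) := by
    apply FreeAlgebra.hom_ext
    funext i
    simp
  rw [this]; rfl

lemma mk_eq_zero {f : FreeAlgebra F ℕ} : (JJ F).ringCon.mkₐ F f = (0 : AA F) ↔ f ∈ JJ F := by
  rw [TwoSidedIdeal.mem_iff]
  exact RingCon.eq _

lemma isIdentity_AA {f : FreeAlgebra F ℕ} : IsIdentity F (AA F) f ↔ f ∈ JJ F := by
  constructor
  · rintro ⟨_, h⟩
    have h1 := h (fun i => (JJ F).ringCon.mkₐ F (FreeAlgebra.ι F i))
    rw [lift_AA, mk_eq_zero] at h1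
    have h2 : FreeAlgebra.lift F (FreeAlgebra.ι F : ℕ → FreeAlgebra F ℕ) =
        AlgHom.id F (FreeAlgebra F ℕ) := by
      apply FreeAlgebra.hom_ext
      funext i
      simp
    have h3 : FreeAlgebra.lift F (fun i : ℕ => FreeAlgebra.ι F i) f = f := by
      exact congrArg (fun g : FreeAlgebra F ℕ →ₐ[F] FreeAlgebra F ℕ => g f) h2
    rwa [h3] at h1
  · intro hf
    refine ⟨JJ_constTerm hf, fun a => ?_⟩
    choose ψ hψ using fun i => RingCon.mkₐ_surjective (α := F) (JJ F).ringCon (a i)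
    have ha : a = fun i => (JJ F).ringCon.mkₐ F (ψ i) := by
      funext i; exact (hψ i).symm
    rw [ha, lift_AA, mk_eq_zero]
    exact JJ_endo _ hf

lemma wk_mem_JJ {j : ℕ} (hj : 0 < j) : wk F j ∈ JJ F := by
  rw [mem_JJ]
  exact ⟨j + 1, fun k hk => wk_mem hj hk⟩

/-- a finite subset of `J` lies in a single `Idk`. -/
lemma finite_subset {S : Set (FreeAlgebra F ℕ)} (hS : S.Finite) (h : ∀ f ∈ S, f ∈ JJ F) :
    ∃ K : ℕ, 0 < K ∧ ∀ f ∈ S, f ∈ Idk F K := by
  have h' : ∀ f : FreeAlgebra F ℕ, ∃ K : ℕ, f ∈ S → ∀ k, K ≤ k → f ∈ Idk F k := by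
    intro f
    by_cases hf : f ∈ S
    · obtain ⟨K, hK⟩ := mem_JJ.mp (h f hf)
      exact ⟨K, fun _ => hK⟩
    · exact ⟨0, fun hf' => absurd hf' hf⟩
  choose K hK using h'
  refine ⟨hS.toFinset.sup K + 1, Nat.succ_pos _, fun f hf => hK f hf _ ?_⟩
  exact le_trans (Finset.le_sup (f := K) (hS.mem_toFinset.mpr hf)) (Nat.le_succ _)

/-- `Idk` as a T-ideal. -/
lemma Idk_isTIdeal {k : ℕ} (hk : 0 < k) : IsTIdeal F (Idk F k) where
  constTerm_eq_zero := fun _ hf => Idk_constTerm hk hf
  zero_mem := Idk_zero k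
  add_mem := fun _ hf _ hg => Idk_add hf hg
  smul_mem := fun c _ hf => Idk_smul c hf
  mul_mem_left := fun g _ _ hf => Idk_mul_left g hf
  mul_mem_right := fun g _ _ hf => Idk_mul_right g hf
  map_mem := fun ψ _ _ hf => Idk_endo ψ hf

/-- `Idk` as a two-sided ideal. -/
noncomputable def IdkT (F : Type u) [Field F] [CharP F 3] (k : ℕ) :
    TwoSidedIdeal (FreeAlgebra F ℕ) :=
  TwoSidedIdeal.mk' (Idk F k) (Idk_zero k) (fun hx hy => Idk_add hx hy) (fun hx => Idk_neg hx)
    (fun {x _} hy => Idk_mul_left x hy) (fun {_ y} hx => Idk_mul_right y hx)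

lemma mem_IdkT {k : ℕ} {f : FreeAlgebra F ℕ} : f ∈ IdkT F k ↔ f ∈ Idk F k := by
  rw [IdkT, TwoSidedIdeal.mem_mk']

end proofs

/-- **Q2 has a negative answer.**  For every infinite field `F` of characteristic `3` and every
`n ≥ 6` there is an associative `F`-algebra `A` which satisfies all polynomial identities of
`M_n(F)`, i.e. `var(A)` is a subvariety of `var(M_n(F))`, and whose T-ideal of identities is not
generated, as a T-ideal, by finitely many polynomials (for T-ideals of the free algebra without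
unit, and also for T-ideals of the free algebra with unit). -/
theorem result (F : Type u) [Field F] [Infinite F] [CharP F 3] (n : ℕ) (hn : 6 ≤ n) :
    ∃ (A : Type u) (_ : Ring A) (_ : Algebra F A),
      identities F (Matrix (Fin n) (Fin n) F) ⊆ identities F A ∧
      ¬ FinitelyBased F (identities F A) ∧ ¬ FinitelyBasedUnital F (identities F A) := by
  refine ⟨AA F, inferInstance, inferInstance, ?_, ?_, ?_⟩
  · intro f hf
    have hf' := identity_six hn hf
    exact isIdentity_AA.mpr (mem_JJ.mpr ⟨0, fun k _ => Idk_matrix k f hf'⟩)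
  · rintro ⟨S, hS, hc, hT⟩
    have hSJ : ∀ f ∈ S, f ∈ JJ F := by
      intro f hf
      apply isIdentity_AA.mp
      change f ∈ identities F (AA F)
      rw [hT]
      intro I _ hSI
      exact hSI hf
    obtain ⟨K, hK0, hK⟩ := finite_subset hS hSJ
    have h1 : wk F K ∈ identities F (AA F) := isIdentity_AA.mpr (wk_mem_JJ hK0)
    rw [hT] at h1
    exact wk_not_mem K hK0 (h1 _ (Idk_isTIdeal hK0) hK)
  · rintro ⟨S, hS, hT⟩
    have hSJ : ∀ f ∈ S, f ∈ JJ F := by
      intro f hf
      apply isIdentity_AA.mp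
      change f ∈ identities F (AA F)
      rw [hT]
      intro I hSI _
      exact hSI f hf
    obtain ⟨K, hK0, hK⟩ := finite_subset hS hSJ
    have h1 : wk F K ∈ identities F (AA F) := isIdentity_AA.mpr (wk_mem_JJ hK0)
    rw [hT] at h1
    have h2 := h1 (IdkT F K) (fun g hg => mem_IdkT.mpr (hK g hg))
      (fun ψ g hg => mem_IdkT.mpr (Idk_endo ψ (mem_IdkT.mp hg)))
    exact wk_not_mem K hK0 (mem_IdkT.mp h2)

end Pool.Agent.Results.MP_63ef02_al.NotSpecht
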